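import Pool.Agent.W435.FB.Base

/-!
# The monodromy argument
-/

set_option autoImplicit false

namespace Pool.Agent.W366.FB

open Pool.Agent.W435.FB

/-- a partial section of `L × A → L` -/
def Sct (L A : Type) : Type :=
  {s : Set (L × A) // s.Nonempty ∧ ∀ l a a', (l, a) ∈ s → (l, a') ∈ s → a = a'}

/-- translation of a section -/
def trs {L A : Type} [AddCommGroup A] (t : A) (s : Sct L A) : Sct L A :=
  ⟨{x | (x.1, x.2 - t) ∈ s.1}, by
    obtain ⟨⟨l, a⟩, h⟩ := s.2.1
    refine ⟨(l, a + t), ?_⟩
    change (l, a + t - t) ∈ s.1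
    rwa [add_sub_cancel_right], by
    intro l a a' h h'
    have := s.2.2 l (a - t) (a' - t) h h'
    simpa using this⟩

lemma mem_trs_iter {L A : Type} [AddCommGroup A] (t : A) (s : Sct L A) (j : ℕ) (x : L × A) :
    x ∈ ((trs t)^[j] s).1 ↔ (x.1, x.2 - j • t) ∈ s.1 := by
  induction j generalizing x with
  | zero => simp
  | succ j ih =>
    rw [Function.iterate_succ_apply']
    change (x.1, x.2 - t) ∈ ((trs t)^[j] s).1 ↔ _
    rw [ih]
    simp only
    have : x.2 - t - j • t = x.2 - (j + 1) • t := by
      rw [add_smul, one_smul]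
      abel
    rw [this]

lemma pth_const {P A : Type} [PartialOrder P] (d : P → A)
    (h : ∀ x y, x ≤ y → d x = d y) {k : ℕ} {x y : P} (hp : Pth k x y) : d x = d y := by
  induction hp with
  | refl x => rfl
  | up _ hyz ih => exact ih.trans (h _ _ hyz)
  | dn _ hyz ih => exact ih.trans (h _ _ hyz).symm

theorem core : CoreStmt := by
  classical
  intro q e M A I L _ _ _ PS P _ _ σ hq hC hsys hBU f g p hf hg hp k xs ys hxy hk
  -- the basic 4-cycle identity
  have K : ∀ x x' y z z' y', x ≤ y → x' ≤ y → z ≤ y' → z' ≤ y' → f z = f x → f z' = f x' →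
      e • (p x y - p x' y) = e • (p z y' - p z' y') := by
    intro x x' y z z' y' h1 h2 h3 h4 h5 h6
    have h7 := hC (p x y - p x' y + p z' y' - p z y')
      ⟨f x, f x', g y, g y', _, _, _, _, hp x y h1, hp x' y h2, by rw [← h6]; exact hp z' y' h4,
        by rw [← h5]; exact hp z y' h3, rfl⟩
    have h8 : p x y - p x' y + p z' y' - p z y' = (p x y - p x' y) - (p z y' - p z' y') := by abel
    rw [h8, smul_sub, sub_eq_zero] at h7
    exact h7
  set c : P → P → A := fun x y => if x ≤ y then e • (p x y - p y y) else 0 with hc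
  have hcle : ∀ x y, x ≤ y → c x y = e • (p x y - p y y) := fun x y h => by simp [hc, h]
  obtain ⟨h, hh⟩ := hsys.h1 A c (by
    intro x y z hxy hyz
    rw [hcle x z (hxy.trans hyz), hcle x y hxy, hcle y z hyz,
      K x y y x y z hxy le_rfl (hxy.trans hyz) hyz rfl rfl, ← smul_add]
    congr 1
    abel)
  -- (1)
  have h1 : ∀ x x' y, x ≤ y → x' ≤ y → e • (p x y - p x' y) = h x - h x' := by
    intro x x' y hx hx'
    have e1 := hh x y hx
    have e2 := hh x' y hx'
    rw [hcle _ _ hx] at e1
    rw [hcle _ _ hx'] at e2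
    have : h x - h x' = (h x - h y) - (h x' - h y) := by abel
    rw [this, ← e1, ← e2, ← smul_sub]
    congr 1
    abel
  -- (2)
  have hfi : ∀ j x, f (σ^[j] x) = f x := by
    intro j x
    induction j with
    | zero => rfl
    | succ j ih => rw [Function.iterate_succ_apply', hf, ih]
  have h2 : ∀ x y, h (σ x) - h x = h (σ y) - h y := by
    have h3 : ∀ x y, x ≤ y → h (σ x) - h x = h (σ y) - h y := by
      intro x y hxy
      have e1 := h1 x y y hxy le_rfl
      have e2 := h1 (σ x) (σ y) (σ y) (hsys.mono hxy) le_rfl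
      rw [K (σ x) (σ y) (σ y) x y y (hsys.mono hxy) le_rfl hxy le_rfl (hf x).symm (hf y).symm,
        e1] at e2
      have : h (σ x) - h x = (h (σ x) - h (σ y)) - (h x - h y) + (h (σ y) - h y) := by abel
      rw [this, e2]
      abel
    intro x y
    obtain ⟨k, hk⟩ := hsys.conn x y
    exact pth_const (fun x => h (σ x) - h x) h3 hk
  set t : A := h (σ (xs 0)) - h (xs 0) with ht
  have hσ : ∀ x, h (σ x) = h x + t := by
    intro x
    rw [ht, h2 (xs 0) x]
    abel
  have hσi : ∀ j x, h (σ^[j] x) = h x + j • t := by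
    intro j x
    induction j with
    | zero => simp
    | succ j ih =>
      rw [Function.iterate_succ_apply', hσ, ih, add_smul, one_smul, add_assoc]
  -- (3)
  have hsum : e • ∑ t ∈ Finset.range k, (p (xs t) (ys t) - p (xs (t + 1)) (ys t)) = -t := by
    rw [Finset.smul_sum, Finset.sum_congr rfl fun i hi => by
      rw [h1 _ _ _ (hxy i (Finset.mem_range.mp hi)).1 (hxy i (Finset.mem_range.mp hi)).2],
      Finset.sum_range_sub', hk, ht]
    abel
  rw [hsum, neg_eq_zero]
  by_contra htne
  -- (4)
  have hqt : q • t = 0 := by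
    have := hσi q (xs 0)
    rw [hsys.per] at this
    simpa using this.symm
  have hord : addOrderOf t = q := by
    haveI : Fact q.Prime := ⟨hq⟩
    exact addOrderOf_eq_prime hqt htne
  have hdvd : ∀ j : ℕ, j • t = 0 → q ∣ j := by
    intro j hj
    rw [← hord]
    exact addOrderOf_dvd_of_nsmul_eq_zero hj
  -- (5)
  obtain ⟨ψ, hψ⟩ := exists_equivariant (X := Sct L A) hq.pos (trs t) (by
    intro s
    apply Subtype.ext
    ext x
    rw [mem_trs_iter, hqt, sub_zero]) (by
    intro s j hs
    obtain ⟨⟨l, a⟩, hla⟩ := s.2.1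
    apply hdvd
    have h3 : (l, a + j • t) ∈ ((trs t)^[j] s).1 := by
      rw [mem_trs_iter]
      simpa using hla
    rw [hs] at h3
    have := s.2.2 l a (a + j • t) hla h3
    simpa using this.symm)
  let F : P → Sct L A := fun y =>
    ⟨{x | ∃ z, z ≤ y ∧ f z = x.1 ∧ h z = x.2}, ⟨(f y, h y), y, le_rfl, rfl, rfl⟩, by
      rintro l a a' ⟨z, hz, hz1, hz2⟩ ⟨z', hz', hz1', hz2'⟩
      simp only at hz1 hz2 hz1' hz2'
      have e1 := h1 z z' y hz hz'
      have e2 : p z y = p z' y := by
        have e3 := hp z y hz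
        have e4 := hp z' y hz'
        rw [hz1] at e3
        rw [hz1', e3] at e4
        exact Option.some.inj e4
      rw [e2, sub_self, smul_zero, hz2, hz2'] at e1
      exact sub_eq_zero.mp e1.symm⟩
  have hFσ : ∀ y, F (σ y) = trs t (F y) := by
    intro y
    apply Subtype.ext
    ext ⟨l, a⟩
    constructor
    · rintro ⟨z, hz, hz1, hz2⟩
      refine ⟨σ^[q - 1] z, ?_, ?_, ?_⟩
      · have := hsys.mono.iterate (q - 1) hz
        rw [← Function.iterate_succ_apply, Nat.succ_eq_add_one, Nat.sub_add_cancel hq.pos,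
          hsys.per] at this
        exact this
      · rw [hfi]
        exact hz1
      · simp only at hz2
        rw [hσi, hz2]
        simp only
        rw [eq_sub_iff_add_eq, add_assoc]
        have : (q - 1) • t + t = q • t := by
          rw [← succ_nsmul, Nat.sub_add_cancel hq.pos]
        rw [this, hqt, add_zero]
    · rintro ⟨z, hz, hz1, hz2⟩
      refine ⟨σ z, hsys.mono hz, ?_, ?_⟩
      · rw [hf]
        exact hz1
      · simp only at hz2
        rw [hσ, hz2]
        simp
  obtain ⟨l, hl1, hl2, hl3⟩ := hBU (fun y => ψ (F y)) (by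
    intro x
    rw [hFσ, hψ])
  have hstep : ∀ (l : List P) (x : P), (x :: l).Pairwise (· < ·) →
      ((x :: l).map (fun y => ψ (F y))).IsChain (· ≠ ·) →
      (F x).1.ncard + l.length ≤ (F ((x :: l).getLast (List.cons_ne_nil _ _))).1.ncard := by
    intro l
    induction l with
    | nil =>
      intro x _ _
      simp
    | cons y l ih =>
      intro x hx1 hx2
      have h3 := ih y (List.pairwise_cons.mp hx1).2 (by
        simp only [List.map_cons] at hx2 ⊢
        exact (List.isChain_cons_cons.mp hx2).2)
      have hlt : x < y := (List.pairwise_cons.mp hx1).1 y (List.mem_cons_self)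
      have hne : ψ (F x) ≠ ψ (F y) := by
        simp only [List.map_cons] at hx2
        exact (List.isChain_cons_cons.mp hx2).1
      have hsub : (F x).1 ⊂ (F y).1 := by
        refine ⟨?_, ?_⟩
        · rintro ⟨l, a⟩ ⟨z, hz, hz1, hz2⟩
          exact ⟨z, hz.trans hlt.le, hz1, hz2⟩
        · intro hsub
          apply hne
          congr 1
          apply Subtype.ext
          refine Set.Subset.antisymm ?_ hsub
          rintro ⟨l, a⟩ ⟨z, hz, hz1, hz2⟩
          exact ⟨z, hz.trans hlt.le, hz1, hz2⟩
      have h4 := Set.ncard_lt_ncard hsub (Set.toFinite _)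
      have h5 : (x :: y :: l).getLast (List.cons_ne_nil _ _) = (y :: l).getLast (List.cons_ne_nil _ _) := by simp
      rw [h5]
      simp only [List.length_cons]
      omega
  cases l with
  | nil => simp at hl1
  | cons x l =>
    have h3 := hstep l x hl2 hl3
    have h4 : 0 < (F x).1.ncard := (Set.ncard_pos (Set.toFinite _)).mpr (F x).2.1
    have h5 : ∀ y, (F y).1.ncard ≤ Nat.card L := by
      intro y
      have : Set.InjOn Prod.fst (F y).1 := by
        rintro ⟨l, a⟩ h6 ⟨l', a'⟩ h7 h8
        simp only at h8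
        subst h8
        rw [(F y).2.2 l a a' h6 h7]
      rw [← Set.ncard_image_of_injOn this]
      exact Set.ncard_le_card _
    have h6 := h5 ((x :: l).getLast (List.cons_ne_nil _ _))
    simp only [List.length_cons] at hl1
    omega

end Pool.Agent.W366.FB
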