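import Pool.Agent.W366.FB.Long

/-!
# The long identity: main statement
-/

set_option autoImplicit false

namespace Pool.Agent.W366.FB

open Pool.Agent.W435.FB

lemma arm_cases {A I L : Type} {PS : L → I → Option A} (s : ARM A I L PS) (h : s ≠ ARM.zero) :
    ∃ i g l, s = ARM.el i g l := by
  cases s with
  | zero => exact absurd rfl h
  | el i g l => exact ⟨i, g, l, rfl⟩

lemma wb_ne {P : Type} (a b : P → ℕ) (z : ℕ) (l : List (P × P)) (hl : l ≠ []) :
    ∃ u : Wd, u.1 :: u.2 = WB a b z l := by
  cases l with
  | nil => exact absurd rfl hl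
  | cons q l => exact ⟨(a q.1, [b q.2, z] ++ WB a b z l), by rw [WB_cons]; rfl⟩

/-- multiplication by `e` from `ZMod q` to `ZMod (e * q)` -/
noncomputable def En (q e : ℕ) [NeZero q] : ZMod q →+ ZMod (e * q) :=
  AddMonoidHom.mk' (fun c => e • ((c.val : ℕ) : ZMod (e * q))) (by
    intro c d
    have h1 : (c + d).val ≡ c.val + d.val [MOD q] := by
      rw [ZMod.val_add]
      exact Nat.mod_modEq _ _
    have h2 := (ZMod.natCast_eq_natCast_iff _ _ _).mpr (Nat.ModEq.mul_left' e h1)
    push_cast at h2
    simp only [nsmul_eq_mul]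
    rw [h2]
    ring)

lemma En_apply (q e : ℕ) [NeZero q] (c : ZMod q) :
    En q e c = e • ((c.val : ℕ) : ZMod (e * q)) := rfl

lemma En_neg_one (q e : ℕ) [NeZero q] (hq : q.Prime) (he : 0 < e) : En q e (-1) ≠ 0 := by
  haveI : Fact q.Prime := ⟨hq⟩
  intro h
  rw [En_apply, nsmul_eq_mul] at h
  have h2 : ((e * (-1 : ZMod q).val : ℕ) : ZMod (e * q)) = 0 := by
    push_cast
    exact h
  rw [ZMod.natCast_eq_zero_iff] at h2
  have h3 : q ∣ (-1 : ZMod q).val := Nat.dvd_of_mul_dvd_mul_left he h2
  have h4 : (-1 : ZMod q).val = 0 := Nat.eq_zero_of_dvd_of_lt h3 (ZMod.val_lt _)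
  rw [ZMod.val_eq_zero] at h4
  exact (neg_ne_zero.mpr one_ne_zero) h4

theorem long : LongStmt := by
  classical
  intro hcore q e M A I L _ _ _ PS P _ _ _ σ hq he hM hC hsys hBU
  haveI : NeZero q := ⟨hq.ne_zero⟩
  haveI : Fintype P := Fintype.ofFinite P
  obtain ⟨η, hη⟩ := exists_equivariant hq.pos σ hsys.per
    (fun x j hx => hsys.sys 0 (Nat.zero_le _) x j (by rw [hx]; exact Pth.refl x))
  obtain ⟨enc, henc⟩ := exists_injective_nat P
  have hiter : ∀ (m n : ℕ) (x : P), (m : ZMod q) = (n : ZMod q) → σ^[m] x = σ^[n] x := by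
    intro m n x hmn
    rw [ZMod.natCast_eq_natCast_iff'] at hmn
    have hper : Function.IsPeriodicPt σ q x := hsys.per x
    rw [← hper.iterate_mod_apply m, ← hper.iterate_mod_apply n, hmn]
  set rep : P → P := fun x => σ^[(-η x).val] x with hrep
  have hrepσ : ∀ x, rep (σ x) = rep x := by
    intro x
    simp only [hrep]
    rw [← Function.iterate_succ_apply]
    apply hiter
    rw [hη]
    push_cast
    rw [ZMod.natCast_zmod_val, ZMod.natCast_zmod_val]
    ring
  have hback : ∀ x, σ^[(η x).val] (rep x) = x := by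
    intro x
    simp only [hrep]
    rw [← Function.iterate_add_apply]
    have := hiter ((η x).val + (-η x).val) 0 x (by
      push_cast
      rw [ZMod.natCast_zmod_val, ZMod.natCast_zmod_val]
      ring)
    simpa using this
  set a : P → ℕ := fun x => 3 * enc (rep x) with ha
  set b : P → ℕ := fun x => 3 * enc (rep x) + 1 with hb
  have haσ : ∀ x, a (σ x) = a x := fun x => by simp only [ha, hrepσ]
  have hbσ : ∀ x, b (σ x) = b x := fun x => by simp only [hb, hrepσ]
  set prs : List (P × P) := (Finset.univ.filter (fun q : P × P => q.1 ≤ q.2)).toList with hprs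
  have hmem : ∀ q, q ∈ prs ↔ q.1 ≤ q.2 := fun q => by simp [hprs]
  set x0 : P := Classical.arbitrary P with hx0def
  have hprsne : prs ≠ [] := by
    have : (x0, x0) ∈ prs := (hmem _).mpr le_rfl
    exact List.ne_nil_of_mem this
  obtain ⟨k0, hk0⟩ := hsys.conn x0 (σ x0)
  obtain ⟨k, xs, ys, hxs0, hxk, hxy⟩ := pth_seq hk0
  set ub := rb e (fun t => (xs t, ys t)) k with hub
  set vb := rb e (fun t => (xs (t + 1), ys t)) k with hvb
  have hubm : ∀ q ∈ ub, q.1 ≤ q.2 := by
    intro q hq
    obtain ⟨t, ht, rfl⟩ := mem_rb hq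
    exact (hxy t ht).1
  have hvbm : ∀ q ∈ vb, q.1 ≤ q.2 := by
    intro q hq
    obtain ⟨t, ht, rfl⟩ := mem_rb hq
    exact (hxy t ht).2
  have hpp : ∀ q ∈ prs ++ prs, q.1 ≤ q.2 := by
    intro q hq
    rcases List.mem_append.mp hq with h | h <;> exact (hmem q).mp h
  have hppne : prs ++ prs ≠ [] := by simp [hprsne]
  obtain ⟨u, hu⟩ := wb_ne a b 2 (prs ++ prs ++ ub) (by simp [hprsne])
  obtain ⟨v, hv⟩ := wb_ne a b 2 (prs ++ prs ++ vb) (by simp [hprsne])
  refine ⟨u, v, ?_, ?_⟩
  · rw [sat_iff_val]
    intro f
    rw [hu, hv]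
    by_cases hz1 : ∃ q ∈ prs, f (a q.1) * f (b q.2) * f 2 = ARM.zero
    · obtain ⟨q0, hq0, hz⟩ := hz1
      obtain ⟨l, m, hlm⟩ := List.append_of_mem hq0
      have key : ∀ w, val f (WB a b 2 (prs ++ prs ++ w)) =
          ((ARM.zero : ARM A I L PS) : WithOne (ARM A I L PS)) := by
        intro w
        have : prs ++ prs ++ w = l ++ q0 :: (m ++ prs ++ w) := by
          conv_lhs => rw [List.append_assoc]
          conv_lhs => enter [1]; rw [hlm]
          simp [List.append_assoc]
        rw [this]
        exact val_zero_blk a b 2 f q0 l _ hz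
      rw [key, key]
    · push Not at hz1
      have hnz : ∀ x y, x ≤ y → f (a x) * f (b y) * f 2 ≠ ARM.zero :=
        fun x y hxy => hz1 (x, y) ((hmem _).mpr hxy)
      have hA : ∀ x, ∃ i g l, f (a x) = ARM.el i g l := by
        intro x
        apply arm_cases
        intro h
        apply hnz x x le_rfl
        rw [h]
        rfl
      have hB : ∀ x, ∃ i g l, f (b x) = ARM.el i g l := by
        intro x
        apply arm_cases
        intro h
        apply hnz x x le_rfl
        rw [h, ARM.mul_zero']
        rfl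
      choose i1 g1 l1 h1 using hA
      choose i2 g2 l2 h2 using hB
      obtain ⟨i0, g0, l0, h0⟩ := arm_cases (f 2) (by
        intro h
        apply hnz x0 x0 le_rfl
        rw [h, ARM.mul_zero'])
      have hp0 : ∀ x y, x ≤ y → PS (l1 x) (i2 y) ≠ none := by
        intro x y hxy hn
        apply hnz x y hxy
        rw [h1, h2, ARM.el_mul_el_none hn]
        rfl
      have hp : ∀ x y, x ≤ y → PS (l1 x) (i2 y) = some ((PS (l1 x) (i2 y)).getD 0) := by
        intro x y hxy
        have := hp0 x y hxy
        rcases h : PS (l1 x) (i2 y) with _ | c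
        · exact absurd h this
        · rfl
      have hr : ∀ y, ∃ c, PS (l2 y) i0 = some c := by
        intro y
        rcases h : PS (l2 y) i0 with _ | c
        · exfalso
          apply hnz y y le_rfl
          rw [h1, h2, h0, ARM.el_mul_el (hp y y le_rfl), ARM.el_mul_el_none h]
        · exact ⟨c, rfl⟩
      choose r hr using hr
      by_cases hm : ∃ x, PS l0 (i1 x) = none
      · obtain ⟨x, hx⟩ := hm
        obtain ⟨l, m, hlm⟩ := List.append_of_mem ((hmem (x, x)).mpr le_rfl)
        have key : ∀ w, val f (WB a b 2 (prs ++ prs ++ w)) =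
            ((ARM.zero : ARM A I L PS) : WithOne (ARM A I L PS)) := by
          intro w
          have : prs ++ prs ++ w = (prs ++ l) ++ (x, x) :: (m ++ w) := by
            conv_lhs => enter [1, 2]; rw [hlm]
            simp [List.append_assoc]
          rw [this]
          apply val_zero_adj a b 2 f (x, x) (prs ++ l) _ (by simp [hprsne])
          rw [h0, h1]
          exact ARM.el_mul_el_none hx
        rw [key, key]
      · have hm' : ∀ x, ∃ c, PS l0 (i1 x) = some c := by
          intro x
          rcases h : PS l0 (i1 x) with _ | c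
          · exact absurd ⟨x, h⟩ hm
          · exact ⟨c, rfl⟩
        choose m hm' using hm'
        obtain ⟨i, h, hval⟩ := val_el' h1 h2 h0 hm' hr hp (prs ++ prs) hppne hpp
        rw [hval ub hubm, hval vb hvbm, hub, hvb, rb_sum, rb_sum]
        congr 3
        have hinv1 : ∀ x, i1 (σ x) = i1 x ∧ g1 (σ x) = g1 x ∧ l1 (σ x) = l1 x := by
          intro x
          have := h1 (σ x)
          rw [haσ, h1 x] at this
          injection this with e1 e2 e3
          exact ⟨e1.symm, e2.symm, e3.symm⟩
        have hinv2 : ∀ x, i2 (σ x) = i2 x := by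
          intro x
          have := h2 (σ x)
          rw [hbσ, h2 x] at this
          injection this with e1 e2 e3
          exact e1.symm
        have hminv : ∀ x, m (σ x) = m x := by
          intro x
          have e1 := hm' (σ x)
          rw [(hinv1 x).1, hm' x] at e1
          exact (Option.some.inj e1).symm
        have hco := hcore q e M A I L PS P σ hq hC hsys hBU l1 i2
          (fun x y => (PS (l1 x) (i2 y)).getD 0) (fun x => (hinv1 x).2.2) hinv2 hp k xs ys hxy
          (by rw [hxk, hxs0])
        have hdiff : ∑ t ∈ Finset.range k, (m (xs t) + (g1 (xs t) + (PS (l1 (xs t))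
              (i2 (ys t))).getD 0 + g2 (ys t) + r (ys t) + g0)) -
            ∑ t ∈ Finset.range k, (m (xs (t + 1)) + (g1 (xs (t + 1)) + (PS (l1 (xs (t + 1)))
              (i2 (ys t))).getD 0 + g2 (ys t) + r (ys t) + g0)) =
            ∑ t ∈ Finset.range k, ((PS (l1 (xs t)) (i2 (ys t))).getD 0 -
              (PS (l1 (xs (t + 1))) (i2 (ys t))).getD 0) := by
          rw [← Finset.sum_sub_distrib]
          have : ∀ t ∈ Finset.range k, (m (xs t) + (g1 (xs t) + (PS (l1 (xs t))
              (i2 (ys t))).getD 0 + g2 (ys t) + r (ys t) + g0)) -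
              (m (xs (t + 1)) + (g1 (xs (t + 1)) + (PS (l1 (xs (t + 1)))
              (i2 (ys t))).getD 0 + g2 (ys t) + r (ys t) + g0)) =
              ((m (xs t) + g1 (xs t)) - (m (xs (t + 1)) + g1 (xs (t + 1)))) +
                ((PS (l1 (xs t)) (i2 (ys t))).getD 0 -
                  (PS (l1 (xs (t + 1))) (i2 (ys t))).getD 0) := by
            intro t _
            abel
          rw [Finset.sum_congr rfl this, Finset.sum_add_distrib,
            Finset.sum_range_sub' (fun t => m (xs t) + g1 (xs t)), hxk, hxs0, hminv,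
            (hinv1 x0).2.1, sub_self, zero_add]
        rw [← sub_eq_zero, ← smul_sub, hdiff]
        exact hco
  · intro hsat
    rw [sat_iff_val] at hsat
    set dec := Function.invFun enc with hdec
    have hde : ∀ x, dec (enc x) = x := Function.leftInverse_invFun henc
    set f : ℕ → ARM (ZMod (e * q)) P P (tP q e σ) := fun n =>
      if n % 3 = 0 then ARM.el x0 0 (dec (n / 3)) else
        if n % 3 = 1 then ARM.el (dec (n / 3)) 0 x0 else ARM.el x0 0 x0 with hf
    have h1 : ∀ x, f (a x) = ARM.el ((fun _ => x0) x) ((fun _ => 0) x) (rep x) := by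
      intro x
      have e1 : (3 * enc (rep x)) % 3 = 0 := by omega
      have e2 : (3 * enc (rep x)) / 3 = enc (rep x) := by omega
      simp only [hf, ha, e1, e2, if_true, hde]
    have h2 : ∀ x, f (b x) = ARM.el (rep x) ((fun _ => 0) x) ((fun _ => x0) x) := by
      intro x
      have e1 : (3 * enc (rep x) + 1) % 3 = 1 := by omega
      have e2 : (3 * enc (rep x) + 1) / 3 = enc (rep x) := by omega
      have e3 : ¬ (1 : ℕ) = 0 := by omega
      simp only [hf, hb, e1, e2, e3, if_true, if_false, hde]
    have h0 : f 2 = ARM.el x0 0 x0 := by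
      simp [hf]
    have ht0 : tP q e σ x0 x0 = some 0 := by
      unfold tP
      have hex : ∃ j, j < q ∧ σ^[j] x0 ≤ x0 := ⟨0, hq.pos, le_rfl⟩
      rw [dif_pos hex]
      have : Nat.find hex = 0 := (Nat.find_eq_zero _).mpr ⟨hq.pos, le_rfl⟩
      rw [this]
      simp
    have htP : ∀ x y, x ≤ y → tP q e σ (rep x) (rep y) =
        some (((η x - η y).val : ℕ) : ZMod (e * q)) := by
      intro x y hxy
      have hle : σ^[(η x - η y).val] (rep x) ≤ rep y := by
        have e1 := (hsys.mono.iterate (-η y).val) hxy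
        have e2 : σ^[(-η y).val] x = σ^[(η x - η y).val] (rep x) := by
          conv_lhs => rw [← hback x]
          rw [← Function.iterate_add_apply]
          apply hiter
          push_cast
          rw [ZMod.natCast_zmod_val, ZMod.natCast_zmod_val, ZMod.natCast_zmod_val]
          ring
        rw [e2] at e1
        exact e1
      unfold tP
      have hex : ∃ j, j < q ∧ σ^[j] (rep x) ≤ rep y := ⟨_, ZMod.val_lt _, hle⟩
      rw [dif_pos hex]
      have hfind : Nat.find hex = (η x - η y).val := by
        obtain ⟨e1, e2⟩ := Nat.find_spec hex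
        have e3 := Nat.find_min' hex ⟨ZMod.val_lt (η x - η y), hle⟩
        set j1 := Nat.find hex with hj1
        have e4' : ∀ w, σ^[(η x - η y).val] w = σ^[(η x - η y).val - j1] (σ^[j1] w) := by
          intro w
          rw [← Function.iterate_add_apply, Nat.sub_add_cancel e3]
        have e4 := e4' (rep x)
        have e5 : Pth 2 (σ^[j1] (rep x)) (σ^[(η x - η y).val - j1] (σ^[j1] (rep x))) := by
          rw [← e4]
          exact Pth.dn (Pth.up (Pth.refl _) e2) hle
        have e6 := hsys.sys 2 hM _ _ e5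
        have e7 := ZMod.val_lt (η x - η y)
        have e8 : (η x - η y).val - j1 = 0 := Nat.eq_zero_of_dvd_of_lt e6 (by omega)
        omega
      rw [hfind]
    obtain ⟨i, h, hval⟩ := val_el' (m := fun _ => 0) (r := fun _ => 0)
      (p := fun x y => (((η x - η y).val : ℕ) : ZMod (e * q))) h1 h2 h0 (fun _ => ht0)
      (fun _ => ht0) htP (prs ++ prs) hppne hpp
    have h3 := hsat f
    rw [hu, hv, hval ub hubm, hval vb hvbm, hub, hvb, rb_sum, rb_sum, WithOne.coe_inj] at h3
    injection h3 with _ h4 _
    have h5 := add_left_cancel h4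
    simp only [zero_add, add_zero] at h5
    rw [← sub_eq_zero, ← smul_sub, ← Finset.sum_sub_distrib, Finset.smul_sum] at h5
    have h6 : ∀ t ∈ Finset.range k, e • ((((η (xs t) - η (ys t)).val : ℕ) : ZMod (e * q)) -
        (((η (xs (t + 1)) - η (ys t)).val : ℕ) : ZMod (e * q))) =
        En q e (η (xs t)) - En q e (η (xs (t + 1))) := by
      intro t _
      rw [smul_sub, ← En_apply, ← En_apply, map_sub, map_sub]
      abel
    rw [Finset.sum_congr rfl h6, Finset.sum_range_sub' (fun t => En q e (η (xs t))), hxk, hxs0,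
      hη, ← map_sub] at h5
    apply En_neg_one q e hq he
    rw [← h5]
    congr 1
    ring

end Pool.Agent.W366.FB
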