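import Pool.Agent.W435.FB.Base

/-!
# The long identity
-/

set_option autoImplicit false

namespace Pool.Agent.W366.FB

open Pool.Agent.W435.FB

/-! ### products of blocks -/

section blocks

variable {P : Type} (a b : P → ℕ) (z : ℕ)

/-- the word made of the blocks of a list of pairs -/
def WB (bs : List (P × P)) : List ℕ := bs.flatMap fun q => [a q.1, b q.2, z]

lemma WB_append (l m : List (P × P)) : WB a b z (l ++ m) = WB a b z l ++ WB a b z m := by
  simp [WB]

lemma WB_cons (q : P × P) (m : List (P × P)) :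
    WB a b z (q :: m) = [a q.1, b q.2, z] ++ WB a b z m := by
  simp [WB]

lemma WB_nil : WB a b z [] = [] := rfl

variable {T : Type} [Semigroup T] (f : ℕ → T)

lemma val_blk (q : P × P) : val f [a q.1, b q.2, z] =
    ((f (a q.1) * f (b q.2) * f z : T) : WithOne T) := by
  simp [val, mul_assoc]

lemma val_WB_cons (q : P × P) (m : List (P × P)) : val f (WB a b z (q :: m)) =
    ((f (a q.1) * f (b q.2) * f z : T) : WithOne T) * val f (WB a b z m) := by
  rw [WB_cons, val_append, val_blk]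

lemma val_WB_append (l m : List (P × P)) : val f (WB a b z (l ++ m)) =
    val f (WB a b z l) * val f (WB a b z m) := by
  rw [WB_append, val_append]

lemma val_WB_last (l : List (P × P)) (hl : l ≠ []) :
    ∃ r : WithOne T, val f (WB a b z l) = r * (f z : WithOne T) := by
  obtain ⟨l', q, rfl⟩ : ∃ l' q, l = l' ++ [q] :=
    ⟨l.dropLast, l.getLast hl, (List.dropLast_append_getLast hl).symm⟩
  refine ⟨val f (WB a b z l') * ((f (a q.1) * f (b q.2) : T) : WithOne T), ?_⟩
  rw [val_WB_append, val_WB_cons, WB_nil, val_nil, mul_one,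
    WithOne.coe_mul (f (a q.1) * f (b q.2)) (f z), ← mul_assoc]

end blocks

section arm

variable {A I L : Type} [AddCommGroup A] {PS : L → I → Option A}

lemma zero_mul_w (x : WithOne (ARM A I L PS)) :
    ((ARM.zero : ARM A I L PS) : WithOne (ARM A I L PS)) * x = (ARM.zero : ARM A I L PS) := by
  induction x using WithOne.recOneCoe with
  | one => rw [mul_one]
  | coe x => rw [← WithOne.coe_mul]; rfl

lemma mul_zero_w (x : WithOne (ARM A I L PS)) :
    x * ((ARM.zero : ARM A I L PS) : WithOne (ARM A I L PS)) = (ARM.zero : ARM A I L PS) := by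
  induction x using WithOne.recOneCoe with
  | one => rw [one_mul]
  | coe x => rw [← WithOne.coe_mul, ARM.mul_zero']

variable {P : Type} (a b : P → ℕ) (z : ℕ) (f : ℕ → ARM A I L PS)

lemma val_zero_blk (q : P × P) (l m : List (P × P))
    (h : f (a q.1) * f (b q.2) * f z = ARM.zero) :
    val f (WB a b z (l ++ q :: m)) = ((ARM.zero : ARM A I L PS) : WithOne (ARM A I L PS)) := by
  rw [val_WB_append, val_WB_cons, h, zero_mul_w, mul_zero_w]

lemma val_zero_adj (q : P × P) (l m : List (P × P)) (hl : l ≠ [])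
    (h : f z * f (a q.1) = ARM.zero) :
    val f (WB a b z (l ++ q :: m)) = ((ARM.zero : ARM A I L PS) : WithOne (ARM A I L PS)) := by
  obtain ⟨r, hr⟩ := val_WB_last a b z f l hl
  rw [val_WB_append, val_WB_cons, hr, WithOne.coe_mul, WithOne.coe_mul]
  have : r * (f z : WithOne (ARM A I L PS)) * (((f (a q.1) : ARM A I L PS) :
      WithOne (ARM A I L PS)) * (f (b q.2) : ARM A I L PS) * (f z : ARM A I L PS) *
        val f (WB a b z m)) =
      r * (((f z * f (a q.1) : ARM A I L PS) : WithOne (ARM A I L PS)) *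
        ((f (b q.2) : ARM A I L PS) * ((f z : ARM A I L PS) * val f (WB a b z m)))) := by
    rw [WithOne.coe_mul]
    simp only [mul_assoc]
  rw [this, h, zero_mul_w, mul_zero_w]

variable {a b z f} {i1 i2 : P → I} {g1 g2 : P → A} {l1 l2 : P → L} {i0 : I} {g0 : A} {l0 : L}
  {m r : P → A} {p : P → P → A} [LE P]

lemma blk_el (h1 : ∀ x, f (a x) = ARM.el (i1 x) (g1 x) (l1 x))
    (h2 : ∀ x, f (b x) = ARM.el (i2 x) (g2 x) (l2 x)) (h0 : f z = ARM.el i0 g0 l0)
    (hr : ∀ x, PS (l2 x) i0 = some (r x))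
    (hp : ∀ x y, x ≤ y → PS (l1 x) (i2 y) = some (p x y)) (x y : P) (hxy : x ≤ y) :
    f (a x) * f (b y) * f z = ARM.el (i1 x) (g1 x + p x y + g2 y + r y + g0) l0 := by
  rw [h1, h2, h0, ARM.el_mul_el (hp x y hxy), ARM.el_mul_el (hr y)]

lemma val_el (h1 : ∀ x, f (a x) = ARM.el (i1 x) (g1 x) (l1 x))
    (h2 : ∀ x, f (b x) = ARM.el (i2 x) (g2 x) (l2 x)) (h0 : f z = ARM.el i0 g0 l0)
    (hm : ∀ x, PS l0 (i1 x) = some (m x)) (hr : ∀ x, PS (l2 x) i0 = some (r x))
    (hp : ∀ x y, x ≤ y → PS (l1 x) (i2 y) = some (p x y)) (bs : List (P × P))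
    (hbs : ∀ q ∈ bs, q.1 ≤ q.2) (i : I) (h : A) :
    ((ARM.el i h l0 : ARM A I L PS) : WithOne (ARM A I L PS)) * val f (WB a b z bs) =
      ((ARM.el i (h + (bs.map fun q => m q.1 + (g1 q.1 + p q.1 q.2 + g2 q.2 + r q.2 + g0)).sum) l0 :
        ARM A I L PS) : WithOne (ARM A I L PS)) := by
  induction bs generalizing h with
  | nil => simp [WB_nil, val_nil]
  | cons q bs ih =>
    rw [val_WB_cons, ← mul_assoc, ← WithOne.coe_mul,
      blk_el h1 h2 h0 hr hp q.1 q.2 (hbs q List.mem_cons_self), ARM.el_mul_el (hm q.1),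
      ih (fun q' hq' => hbs q' (List.mem_cons_of_mem _ hq'))]
    simp only [List.map_cons, List.sum_cons, add_assoc]

lemma val_el' (h1 : ∀ x, f (a x) = ARM.el (i1 x) (g1 x) (l1 x))
    (h2 : ∀ x, f (b x) = ARM.el (i2 x) (g2 x) (l2 x)) (h0 : f z = ARM.el i0 g0 l0)
    (hm : ∀ x, PS l0 (i1 x) = some (m x)) (hr : ∀ x, PS (l2 x) i0 = some (r x))
    (hp : ∀ x y, x ≤ y → PS (l1 x) (i2 y) = some (p x y)) (bs : List (P × P)) (hne : bs ≠ [])
    (hbs : ∀ q ∈ bs, q.1 ≤ q.2) :
    ∃ (i : I) (h : A), ∀ cs : List (P × P), (∀ q ∈ cs, q.1 ≤ q.2) →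
      val f (WB a b z (bs ++ cs)) = ((ARM.el i (h + (cs.map fun q => m q.1 +
        (g1 q.1 + p q.1 q.2 + g2 q.2 + r q.2 + g0)).sum) l0 : ARM A I L PS) :
          WithOne (ARM A I L PS)) := by
  cases bs with
  | nil => exact absurd rfl hne
  | cons q bs =>
    refine ⟨i1 q.1, (g1 q.1 + p q.1 q.2 + g2 q.2 + r q.2 + g0) + (bs.map fun q => m q.1 +
      (g1 q.1 + p q.1 q.2 + g2 q.2 + r q.2 + g0)).sum, fun cs hcs => ?_⟩
    rw [List.cons_append, val_WB_cons, blk_el h1 h2 h0 hr hp q.1 q.2 (hbs q List.mem_cons_self),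
      val_el h1 h2 h0 hm hr hp (bs ++ cs) (by
        intro q' hq'
        rcases List.mem_append.mp hq' with h | h
        · exact hbs q' (List.mem_cons_of_mem _ h)
        · exact hcs q' h)]
    rw [List.map_append, List.sum_append, ← add_assoc]

end arm

/-! ### zigzag sequences -/

lemma pth_seq {P : Type} [PartialOrder P] {k : ℕ} {x y : P} (h : Pth k x y) :
    ∃ (k' : ℕ) (xs ys : ℕ → P), xs 0 = x ∧ xs k' = y ∧
      ∀ t < k', xs t ≤ ys t ∧ xs (t + 1) ≤ ys t := by
  have key : ∀ (k' : ℕ) (xs ys : ℕ → P) (y z w : P), xs k' = y → y ≤ w → z ≤ w →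
      (∀ t < k', xs t ≤ ys t ∧ xs (t + 1) ≤ ys t) →
      ∃ (xs' ys' : ℕ → P), xs' 0 = xs 0 ∧ xs' (k' + 1) = z ∧
        ∀ t < k' + 1, xs' t ≤ ys' t ∧ xs' (t + 1) ≤ ys' t := by
    intro k' xs ys y z w h1 h2 h3 h4
    refine ⟨fun t => if t ≤ k' then xs t else z, fun t => if t < k' then ys t else w, by simp,
      by simp, ?_⟩
    intro t ht
    by_cases htk : t < k'
    · have e1 : t ≤ k' := htk.le
      have e2 : t + 1 ≤ k' := htk
      simp only [e1, e2, htk, if_true]
      exact h4 t htk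
    · have e0 : t = k' := by omega
      subst e0
      simp only [le_refl, lt_irrefl, Nat.not_succ_le_self, ↓reduceIte]
      exact ⟨h1 ▸ h2, h3⟩
  induction h with
  | refl x => exact ⟨0, fun _ => x, fun _ => x, rfl, rfl, fun t ht => absurd ht (Nat.not_lt_zero t)⟩
  | up _ hyz ih =>
    obtain ⟨k', xs, ys, h1, h2, h3⟩ := ih
    obtain ⟨xs', ys', h4, h5, h6⟩ := key k' xs ys _ _ _ h2 hyz le_rfl h3
    exact ⟨k' + 1, xs', ys', h4.trans h1, h5, h6⟩
  | dn _ hyz ih =>
    obtain ⟨k', xs, ys, h1, h2, h3⟩ := ih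
    obtain ⟨xs', ys', h4, h5, h6⟩ := key k' xs ys _ _ _ h2 le_rfl hyz h3
    exact ⟨k' + 1, xs', ys', h4.trans h1, h5, h6⟩

/-- blocks repeated `e` times -/
def rb {P : Type} (e : ℕ) (F : ℕ → P × P) (k : ℕ) : List (P × P) :=
  (List.range k).flatMap fun t => List.replicate e (F t)

lemma rb_sum {P A : Type} [AddCommGroup A] (e : ℕ) (F : ℕ → P × P) (k : ℕ) (w : P × P → A) :
    ((rb e F k).map w).sum = e • ∑ t ∈ Finset.range k, w (F t) := by
  induction k with
  | zero => simp [rb]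
  | succ k ih =>
    rw [Finset.sum_range_succ, smul_add, ← ih]
    simp [rb, List.range_succ, List.flatMap_append]

lemma mem_rb {P : Type} {e : ℕ} {F : ℕ → P × P} {k : ℕ} {q : P × P} (h : q ∈ rb e F k) :
    ∃ t < k, q = F t := by
  simp only [rb, List.mem_flatMap, List.mem_range, List.mem_replicate] at h
  obtain ⟨t, ht, _, hq⟩ := h
  exact ⟨t, ht, hq⟩

end Pool.Agent.W366.FB
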